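import Mathlib

/-!
# Frustration parameters realised by non-equitable graph bipartitions

A value `α ∈ (0, π/2)` is realisable if and only if `tan² α` is rational.
-/

namespace Pool.Agent.Results.MP_7aff4e_co.RealisableAngles

/-- The number of neighbours of `i` in `S`. -/
noncomputable def nbrs {V : Type} (G : SimpleGraph V) (S : Set V) (i : V) : ℕ :=
  (G.neighborSet i ∩ S).ncard

/-- The bipartition `(S, Sᶜ)` is equitable. -/
def Equitable {V : Type} (G : SimpleGraph V) (S : Set V) : Prop :=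
  (∀ i ∈ S, ∀ i' ∈ S, nbrs G S i = nbrs G S i' ∧ nbrs G Sᶜ i = nbrs G Sᶜ i') ∧
  (∀ j ∈ Sᶜ, ∀ j' ∈ Sᶜ, nbrs G S j = nbrs G S j' ∧ nbrs G Sᶜ j = nbrs G Sᶜ j')

/-- The linear degree condition with parameters `(μ₁, μ₂, r)`. -/
def LinearDegree {V : Type} (G : SimpleGraph V) (S : Set V) (μ₁ μ₂ r : ℝ) : Prop :=
  (∀ i ∈ S, -(nbrs G S i : ℝ) + μ₁ * (nbrs G Sᶜ i : ℝ) = r) ∧
  (∀ j ∈ Sᶜ, -(nbrs G Sᶜ j : ℝ) + μ₂ * (nbrs G S j : ℝ) = r)

/-- `α` is realisable. -/
def Realisable (α : ℝ) : Prop :=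
  ∃ (V : Type) (_ : Finite V) (G : SimpleGraph V) (S : Set V) (μ₁ μ₂ r : ℝ),
    G.Connected ∧ S.Nonempty ∧ Sᶜ.Nonempty ∧ ¬ Equitable G S ∧ LinearDegree G S μ₁ μ₂ r ∧
    |μ₁ + μ₂| < 2 ∧ μ₂ < μ₁ ∧
    α = Real.arctan (√(4 - (μ₁ + μ₂) ^ 2) / (μ₁ - μ₂))

/-! ### The converse: the parameters are rational -/

lemma exists_cross {V : Type} (G : SimpleGraph V) (hG : G.Connected) (S : Set V)
    (h1 : S.Nonempty) (h2 : Sᶜ.Nonempty) : ∃ i ∈ S, ∃ j ∈ Sᶜ, G.Adj i j := by
  obtain ⟨a, ha⟩ := h1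
  obtain ⟨b, hb⟩ := h2
  obtain ⟨p⟩ := hG.preconnected a b
  by_contra hcon
  push Not at hcon
  have : ∀ (u v : V) (p : G.Walk u v), u ∈ S → v ∈ S := by
    intro u v p
    induction p with
    | nil => exact id
    | @cons u v w h p ih =>
      intro hu
      apply ih
      by_contra hv
      exact hcon u hu v hv h
  exact hb (this a b p ha)

lemma nbrs_pos {V : Type} [Finite V] (G : SimpleGraph V) (S : Set V) (i j : V) (hj : j ∈ S)
    (h : G.Adj i j) : 0 < nbrs G S i := by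
  unfold nbrs
  rw [Set.ncard_pos]
  exact ⟨j, h, hj⟩

lemma rational_case (a b c d e f : ℕ) (μ₁ μ₂ r : ℝ) (h1 : -(a : ℝ) + μ₁ * (b : ℝ) = r)
    (h2 : -(c : ℝ) + μ₁ * (d : ℝ) = r) (hne : b ≠ d) (h3 : -(e : ℝ) + μ₂ * (f : ℝ) = r)
    (hf : 0 < f) : ∃ p q : ℚ, μ₁ = p ∧ μ₂ = q := by
  have hbd : (b : ℝ) - d ≠ 0 := by
    intro h
    apply hne
    have : (b : ℝ) = d := by linarith
    exact_mod_cast this
  have hμ : μ₁ = ((a : ℝ) - c) / (b - d) := by
    rw [eq_div_iff hbd]
    linarith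
  have hf' : (f : ℝ) ≠ 0 := by
    have : (0 : ℝ) < f := by exact_mod_cast hf
    exact this.ne'
  have hμ2 : μ₂ = (r + e) / f := by
    rw [eq_div_iff hf']
    linarith
  refine ⟨((a : ℚ) - c) / (b - d), ((-(a : ℚ) + ((a : ℚ) - c) / (b - d) * b) + e) / f, ?_, ?_⟩
  · rw [hμ]; push_cast; rfl
  · rw [hμ2, ← h1, hμ]; push_cast; rfl

lemma rational {V : Type} [Finite V] (G : SimpleGraph V) (S : Set V) (μ₁ μ₂ r : ℝ)
    (hG : G.Connected) (h1 : S.Nonempty) (h2 : Sᶜ.Nonempty) (hne : ¬ Equitable G S)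
    (hL : LinearDegree G S μ₁ μ₂ r) : ∃ p q : ℚ, μ₁ = p ∧ μ₂ = q := by
  obtain ⟨i0, hi0, j0, hj0, hadj⟩ := exists_cross G hG S h1 h2
  have hpos1 : 0 < nbrs G Sᶜ i0 := nbrs_pos G Sᶜ i0 j0 hj0 hadj
  have hpos2 : 0 < nbrs G S j0 := nbrs_pos G S j0 i0 hi0 hadj.symm
  by_cases hA : ∀ i ∈ S, ∀ i' ∈ S, nbrs G Sᶜ i = nbrs G Sᶜ i'
  · by_cases hB : ∀ j ∈ Sᶜ, ∀ j' ∈ Sᶜ, nbrs G S j = nbrs G S j'
    · exfalso
      apply hne
      refine ⟨fun i hi i' hi' => ⟨?_, hA i hi i' hi'⟩, fun j hj j' hj' => ⟨hB j hj j' hj', ?_⟩⟩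
      · have e1 := hL.1 i hi
        have e2 := hL.1 i' hi'
        rw [hA i hi i' hi'] at e1
        have : (nbrs G S i : ℝ) = nbrs G S i' := by linarith
        exact_mod_cast this
      · have e1 := hL.2 j hj
        have e2 := hL.2 j' hj'
        rw [hB j hj j' hj'] at e1
        have : (nbrs G Sᶜ j : ℝ) = nbrs G Sᶜ j' := by linarith
        exact_mod_cast this
    · push Not at hB
      obtain ⟨j, hj, j', hj', hjj⟩ := hB
      obtain ⟨p, q, hp, hq⟩ := rational_case _ _ _ _ _ _ μ₂ μ₁ r (hL.2 j hj) (hL.2 j' hj') hjj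
        (hL.1 i0 hi0) hpos1
      exact ⟨q, p, hq, hp⟩
  · push Not at hA
    obtain ⟨i, hi, i', hi', hii⟩ := hA
    exact rational_case _ _ _ _ _ _ μ₁ μ₂ r (hL.1 i hi) (hL.1 i' hi') hii (hL.2 j0 hj0) hpos2

/-! ### The construction -/

/-- Vertices: side, type, and position on a cycle of length `N`. -/
abbrev W (N : ℕ) := (Bool × Bool) × ZMod N

/-- The graph in which `(X, x)` and `(Y, y)` are adjacent iff `y = x ± k` for some
`1 ≤ k ≤ h X Y`. -/
def graph (N : ℕ) (h : Bool × Bool → Bool × Bool → ℕ) (hs : ∀ X Y, h X Y = h Y X)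
    (hN : ∀ X Y, 2 * h X Y < N) : SimpleGraph (W N) where
  Adj v w := ∃ k : ℕ, 1 ≤ k ∧ k ≤ h v.1 w.1 ∧ (w.2 = v.2 + (k : ZMod N) ∨ v.2 = w.2 + (k : ZMod N))
  symm := ⟨by
    rintro v w ⟨k, h1, h2, h3⟩
    refine ⟨k, h1, by rw [hs]; exact h2, h3.symm⟩⟩
  loopless := ⟨by
    rintro v ⟨k, h1, h2, h3⟩
    have h4 : (k : ZMod N) = 0 := by
      rcases h3 with h3 | h3
      · exact left_eq_add.mp h3
      · exact left_eq_add.mp h3
    rw [ZMod.natCast_eq_zero_iff] at h4
    have h5 := Nat.le_of_dvd (by omega) h4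
    have := hN v.1 v.1
    omega⟩

open Classical in
lemma card_circ (N : ℕ) [NeZero N] (m : ℕ) (hm : 2 * m < N) (x : ZMod N) :
    (Finset.univ.filter (fun y : ZMod N => ∃ k : ℕ, 1 ≤ k ∧ k ≤ m ∧
      (y = x + (k : ZMod N) ∨ x = y + (k : ZMod N)))).card = 2 * m := by
  have hset : (Finset.univ.filter (fun y : ZMod N => ∃ k : ℕ, 1 ≤ k ∧ k ≤ m ∧
      (y = x + (k : ZMod N) ∨ x = y + (k : ZMod N))))
      = (Finset.Icc 1 m).image (fun k : ℕ => x + (k : ZMod N)) ∪
        (Finset.Icc 1 m).image (fun k : ℕ => x - (k : ZMod N)) := by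
    ext y
    simp only [Finset.mem_filter, Finset.mem_univ, true_and, Finset.mem_union, Finset.mem_image,
      Finset.mem_Icc]
    constructor
    · rintro ⟨k, h1, h2, h3 | h3⟩
      · exact Or.inl ⟨k, ⟨h1, h2⟩, h3.symm⟩
      · exact Or.inr ⟨k, ⟨h1, h2⟩, by rw [h3]; ring⟩
    · rintro (⟨k, ⟨h1, h2⟩, h3⟩ | ⟨k, ⟨h1, h2⟩, h3⟩)
      · exact ⟨k, h1, h2, Or.inl h3.symm⟩
      · exact ⟨k, h1, h2, Or.inr (by rw [← h3]; ring)⟩
  have hinj : ∀ a ∈ Finset.Icc 1 m, ∀ b ∈ Finset.Icc 1 m, (a : ZMod N) = (b : ZMod N) → a = b := by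
    intro a ha b hb hab
    rw [Finset.mem_Icc] at ha hb
    rw [ZMod.natCast_eq_natCast_iff] at hab
    exact Nat.ModEq.eq_of_lt_of_lt hab (by omega) (by omega)
  rw [hset, Finset.card_union_of_disjoint, Finset.card_image_of_injOn, Finset.card_image_of_injOn,
    Nat.card_Icc]
  · omega
  · intro a ha b hb hab
    exact hinj a ha b hb (sub_right_injective hab)
  · intro a ha b hb hab
    exact hinj a ha b hb (add_right_injective x hab)
  · rw [Finset.disjoint_left]
    intro y h1 h2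
    rw [Finset.mem_image] at h1 h2
    obtain ⟨a, ha, rfl⟩ := h1
    obtain ⟨b, hb, hab⟩ := h2
    rw [Finset.mem_Icc] at ha hb
    have h3 : ((a + b : ℕ) : ZMod N) = 0 := by
      push_cast
      have : x - (b : ZMod N) - x - (a : ZMod N) + (b : ZMod N) = 0 - (a : ZMod N) := by ring
      have h4 : x - (b : ZMod N) = x + (a : ZMod N) := hab
      linear_combination -h4
    rw [ZMod.natCast_eq_zero_iff] at h3
    have := Nat.le_of_dvd (by omega) h3
    omega

open Classical in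
lemma nbrs_graph (N : ℕ) [NeZero N] (h : Bool × Bool → Bool × Bool → ℕ)
    (hs : ∀ X Y, h X Y = h Y X) (hN : ∀ X Y, 2 * h X Y < N) (s : Bool) (v : W N) :
    nbrs (graph N h hs hN) {w | w.1.1 = s} v = 2 * h v.1 (s, true) + 2 * h v.1 (s, false) := by
  unfold nbrs
  rw [Set.ncard_eq_toFinset_card']
  have hset : ((graph N h hs hN).neighborSet v ∩ {w | w.1.1 = s}).toFinset
      = Finset.univ.filter (fun w : W N => w.1.1 = s ∧ ∃ k : ℕ, 1 ≤ k ∧ k ≤ h v.1 w.1 ∧
        (w.2 = v.2 + (k : ZMod N) ∨ v.2 = w.2 + (k : ZMod N))) := by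
    ext w
    simp only [Set.mem_toFinset, Set.mem_inter_iff, SimpleGraph.mem_neighborSet,
      Finset.mem_filter, Finset.mem_univ, true_and]
    exact and_comm
  rw [hset, Finset.card_filter, Fintype.sum_prod_type, Fintype.sum_prod_type]
  have key : ∀ s' t' : Bool, (∑ y : ZMod N, (if (((s', t'), y) : W N).1.1 = s ∧
      (∃ k : ℕ, 1 ≤ k ∧ k ≤ h v.1 (((s', t'), y) : W N).1 ∧
        ((((s', t'), y) : W N).2 = v.2 + (k : ZMod N) ∨
          v.2 = (((s', t'), y) : W N).2 + (k : ZMod N))) then 1 else 0))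
      = if s' = s then 2 * h v.1 (s', t') else 0 := by
    intro s' t'
    by_cases hss : s' = s
    · subst hss
      simp only [true_and, if_true]
      rw [← Finset.card_filter]
      exact card_circ N (h v.1 (s', t')) (hN _ _) v.2
    · rw [if_neg hss]
      apply Finset.sum_eq_zero
      intro y _
      rw [if_neg]
      rintro ⟨h1, _⟩
      exact hss h1
  simp only [key, Fintype.sum_bool]
  cases s <;> simp

lemma connected_graph (N : ℕ) [NeZero N] (h : Bool × Bool → Bool × Bool → ℕ)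
    (hs : ∀ X Y, h X Y = h Y X) (hN : ∀ X Y, 2 * h X Y < N) (hin : ∀ X, 1 ≤ h X X)
    (h1 : 1 ≤ h (true, true) (false, true)) (h2 : 1 ≤ h (true, true) (false, false))
    (h3 : 1 ≤ h (true, false) (false, true)) : (graph N h hs hN).Connected := by
  have hin' : ∀ (X : Bool × Bool) (n : ℕ), (graph N h hs hN).Reachable (X, 0) (X, (n : ZMod N)) := by
    intro X n
    induction n with
    | zero => rw [Nat.cast_zero]
    | succ n ih =>
      refine ih.trans (SimpleGraph.Adj.reachable ?_)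
      exact ⟨1, le_refl _, hin X, Or.inl (by push_cast; rfl)⟩
  have hrow : ∀ (X : Bool × Bool) (x : ZMod N), (graph N h hs hN).Reachable (X, 0) (X, x) := by
    intro X x
    have := hin' X x.val
    rwa [ZMod.natCast_val, ZMod.cast_id] at this
  have hcr : ∀ X Y, 1 ≤ h X Y → (graph N h hs hN).Reachable (X, 0) (Y, 0) := by
    intro X Y hXY
    refine (SimpleGraph.Adj.reachable ?_).trans (hrow Y 1).symm
    exact ⟨1, le_refl _, hXY, Or.inl (by push_cast; ring)⟩
  have hall : ∀ v : W N, (graph N h hs hN).Reachable ((true, true), 0) v := by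
    rintro ⟨X, x⟩
    refine SimpleGraph.Reachable.trans ?_ (hrow X x)
    rcases X with ⟨_ | _, _ | _⟩
    · exact hcr _ _ h2
    · exact hcr _ _ h1
    · exact (hcr _ _ h1).trans (hcr _ _ h3).symm
    · exact SimpleGraph.Reachable.refl _
  haveI : Nonempty (W N) := ⟨((true, true), 0)⟩
  exact ⟨fun v w => (hall v).symm.trans (hall w)⟩

/-- For a rational `m` and `μ₂ = -1`, the parameters `(m, -1, -R)` are realised. -/
lemma construct (m : ℚ) : ∃ (V : Type) (_ : Finite V) (G : SimpleGraph V) (S : Set V) (r : ℝ),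
    G.Connected ∧ S.Nonempty ∧ Sᶜ.Nonempty ∧ ¬ Equitable G S ∧ LinearDegree G S (m : ℝ) (-1) r := by
  set q : ℕ := m.den with hq
  set a : ℤ := m.num with ha
  have hqpos : 1 ≤ q := m.den_pos
  set ρ : ℕ := 2 * q + 2 * a.natAbs + 1 with hρ
  let inner : Bool → Bool → ℕ := fun s t =>
    match s, t with
    | true, true => ((ρ : ℤ) + 2 * a).toNat
    | true, false => ((ρ : ℤ) + a).toNat
    | false, true => ρ - 2 * q
    | false, false => ρ - q
  let h : Bool × Bool → Bool × Bool → ℕ := fun X Y =>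
    if X.1 = Y.1 then (if X.2 = Y.2 then inner X.1 X.2 else 0)
    else (if X.2 = false ∧ Y.2 = false then 0 else q)
  have hs : ∀ X Y, h X Y = h Y X := by
    rintro ⟨_ | _, _ | _⟩ ⟨_ | _, _ | _⟩ <;> simp [h]
  set N : ℕ := 2 * (inner true true + inner true false + inner false true + inner false false + q)
    + 1 with hNdef
  have hN : ∀ X Y, 2 * h X Y < N := by
    rintro ⟨_ | _, _ | _⟩ ⟨_ | _, _ | _⟩ <;> simp only [h] <;> simp <;> omega
  haveI : NeZero N := ⟨by omega⟩
  have hin : ∀ X, 1 ≤ h X X := by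
    rintro ⟨_ | _, _ | _⟩ <;> simp only [h, inner, if_true] <;> omega
  have hconn := connected_graph N h hs hN hin (by simp [h]; omega) (by simp [h]; omega)
    (by simp [h]; omega)
  have hS : ({w : W N | w.1.1 = true} : Set (W N))ᶜ = {w | w.1.1 = false} := by
    ext w
    simp
  have hmq : (m : ℝ) * q = a := by
    have := Rat.mul_den_eq_num m
    have h2 : ((m * (m.den : ℚ) : ℚ) : ℝ) = ((m.num : ℚ) : ℝ) := by rw [this]
    push_cast at h2
    exact h2
  refine ⟨W N, inferInstance, graph N h hs hN, {w | w.1.1 = true}, -(2 * ρ : ℝ), hconn,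
    ⟨((true, true), 0), rfl⟩, ⟨((false, true), 0), by simp⟩, ?_, ?_⟩
  · intro heq
    have := (heq.1 ((true, true), 0) rfl ((true, false), 0) rfl).2
    rw [hS, nbrs_graph, nbrs_graph] at this
    simp [h] at this
    omega
  · constructor
    · rintro ⟨⟨s, t⟩, x⟩ hi
      have hst : s = true := hi
      subst hst
      rw [hS, nbrs_graph, nbrs_graph]
      cases t
      · have e1 : 2 * h (true, false) (true, true) + 2 * h (true, false) (true, false)
            = 2 * ((ρ : ℤ) + a).toNat := by simp [h, inner]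
        have e2 : 2 * h (true, false) (false, true) + 2 * h (true, false) (false, false)
            = 2 * q := by simp [h]
        have e3 : ((2 * ((ρ : ℤ) + a).toNat : ℕ) : ℝ) = 2 * ((ρ : ℝ) + a) := by
          have : ((((ρ : ℤ) + a).toNat : ℕ) : ℤ) = (ρ : ℤ) + a := Int.toNat_of_nonneg (by omega)
          have h3 : ((((ρ : ℤ) + a).toNat : ℕ) : ℝ) = (ρ : ℝ) + a := by exact_mod_cast this
          rw [Nat.cast_mul, h3]
          norm_num
        simp only
        rw [e1, e2, e3]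
        push_cast
        linear_combination 2 * hmq
      · have e1 : 2 * h (true, true) (true, true) + 2 * h (true, true) (true, false)
            = 2 * ((ρ : ℤ) + 2 * a).toNat := by simp [h, inner]
        have e2 : 2 * h (true, true) (false, true) + 2 * h (true, true) (false, false)
            = 4 * q := by simp [h]; ring
        have e3 : ((2 * ((ρ : ℤ) + 2 * a).toNat : ℕ) : ℝ) = 2 * ((ρ : ℝ) + 2 * a) := by
          have : ((((ρ : ℤ) + 2 * a).toNat : ℕ) : ℤ) = (ρ : ℤ) + 2 * a :=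
            Int.toNat_of_nonneg (by omega)
          have h3 : ((((ρ : ℤ) + 2 * a).toNat : ℕ) : ℝ) = (ρ : ℝ) + 2 * a := by exact_mod_cast this
          rw [Nat.cast_mul, h3]
          norm_num
        simp only
        rw [e1, e2, e3]
        push_cast
        linear_combination 4 * hmq
    · rintro ⟨⟨s, t⟩, x⟩ hj
      have hst : s = false := by
        rw [hS] at hj; exact hj
      subst hst
      rw [hS, nbrs_graph, nbrs_graph]
      cases t
      · have e1 : 2 * h (false, false) (false, true) + 2 * h (false, false) (false, false)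
            = 2 * (ρ - q) := by simp [h, inner]
        have e2 : 2 * h (false, false) (true, true) + 2 * h (false, false) (true, false)
            = 2 * q := by simp [h]
        have e3 : ((2 * (ρ - q) : ℕ) : ℝ) = 2 * ((ρ : ℝ) - q) := by
          rw [Nat.cast_mul, Nat.cast_sub (by omega)]; push_cast; ring
        simp only
        rw [e1, e2, e3]
        push_cast
        ring
      · have e1 : 2 * h (false, true) (false, true) + 2 * h (false, true) (false, false)
            = 2 * (ρ - 2 * q) := by simp [h, inner]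
        have e2 : 2 * h (false, true) (true, true) + 2 * h (false, true) (true, false)
            = 4 * q := by simp [h]; ring
        have e3 : ((2 * (ρ - 2 * q) : ℕ) : ℝ) = 2 * ((ρ : ℝ) - 2 * q) := by
          rw [Nat.cast_mul, Nat.cast_sub (by omega)]; push_cast; ring
        simp only
        rw [e1, e2, e3]
        push_cast
        ring

/-- **The realisable set**: `α` is realisable iff `0 < α < π/2` and `tan² α` is rational. -/
theorem result : ∀ α : ℝ, Realisable α ↔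
    (0 < α ∧ α < Real.pi / 2 ∧ ∃ t : ℚ, Real.tan α ^ 2 = (t : ℝ)) := by
  intro α
  constructor
  · rintro ⟨V, _, G, S, μ₁, μ₂, r, hG, h1, h2, hne, hL, habs, hlt, rfl⟩
    obtain ⟨p, q, rfl, rfl⟩ := rational G S μ₁ μ₂ r hG h1 h2 hne hL
    have hpos : 0 < 4 - ((p : ℝ) + q) ^ 2 := by
      have := abs_lt.mp habs
      nlinarith
    have hd : 0 < (p : ℝ) - q := by linarith
    have hx : 0 < √(4 - ((p : ℝ) + q) ^ 2) / ((p : ℝ) - q) := div_pos (Real.sqrt_pos.mpr hpos) hd
    refine ⟨Real.arctan_pos.mpr hx, Real.arctan_lt_pi_div_two _,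
      (4 - (p + q) ^ 2) / (p - q) ^ 2, ?_⟩
    rw [Real.tan_arctan, div_pow, Real.sq_sqrt hpos.le]
    push_cast
    rfl
  · rintro ⟨h0, hpi, t, ht⟩
    have htan : 0 < Real.tan α := Real.tan_pos_of_pos_of_lt_pi_div_two h0 hpi
    have htpos : (0 : ℝ) < t := by rw [← ht]; positivity
    obtain ⟨V, hV, G, S, r, hG, h1, h2, hne, hL⟩ := construct ((3 - t) / (1 + t))
    have hone : (0 : ℝ) < 1 + t := by linarith
    have hm : (((3 - t) / (1 + t) : ℚ) : ℝ) = (3 - (t : ℝ)) / (1 + t) := by push_cast; rfl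
    have hsum : (((3 - t) / (1 + t) : ℚ) : ℝ) + (-1) = 2 * (1 - (t : ℝ)) / (1 + t) := by
      rw [hm]; field_simp; ring
    have hdiff : (((3 - t) / (1 + t) : ℚ) : ℝ) - (-1) = 4 / (1 + (t : ℝ)) := by
      rw [hm]; field_simp; ring
    refine ⟨V, hV, G, S, _, -1, r, hG, h1, h2, hne, hL, ?_, ?_, ?_⟩
    · rw [hsum, abs_lt]
      constructor
      · rw [lt_div_iff₀ hone]; linarith
      · rw [div_lt_iff₀ hone]; linarith
    · have : 0 < 4 / (1 + (t : ℝ)) := by positivity
      linarith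
    · rw [hsum, hdiff]
      have h4 : 4 - (2 * (1 - (t : ℝ)) / (1 + t)) ^ 2 = (4 * Real.tan α / (1 + t)) ^ 2 := by
        rw [div_pow, div_pow, mul_pow, mul_pow, ht]
        field_simp
        ring
      rw [h4, Real.sqrt_sq (by positivity)]
      have h5 : 4 * Real.tan α / (1 + (t : ℝ)) / (4 / (1 + t)) = Real.tan α := by
        field_simp
      rw [h5, Real.arctan_tan (by linarith [Real.pi_pos]) hpi]

end Pool.Agent.Results.MP_7aff4e_co.RealisableAngles
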